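import Pool.Agent.Helper51.PP.GoalsA2b

/-!
# Project PP, packet PP-A2-CRT: different sets of primes have different characters
-/

namespace Pool.Agent.Helper64.PP

open NumberField IsDedekindDomain Finset
open Pool.Agent.Helper17.PP (Sys)
open Pool.Agent.Helper51.PP

variable {F : Type} [Field F] [NumberField F]

lemma coprime_span_of_sub_one_mem {I : Ideal (𝓞 F)} {α : 𝓞 F} (h : α - 1 ∈ I) :
    IsCoprime (Ideal.span {α}) I := by
  rw [Ideal.isCoprime_iff_sup_eq, Ideal.eq_top_iff_one]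
  have h1 : (1 : 𝓞 F) = α + -(α - 1) := by ring
  rw [h1]
  exact Submodule.add_mem_sup (Ideal.mem_span_singleton_self α) (I.neg_mem h)

/-- Products of ray class characters. -/
lemma rc_prod {B : Type} (D : Finset B) (hD : D.Nonempty) (𝔪 : B → Ideal (𝓞 F))
    (X : B → Ideal (𝓞 F) → ℂ) (h : ∀ q ∈ D, RC (𝔪 q) (X q)) :
    RC (∏ q ∈ D, 𝔪 q) (fun I ↦ ∏ q ∈ D, X q I) where
  ne := Finset.prod_ne_zero_iff.mpr fun q hq ↦ (h q hq).ne
  zero := by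
    obtain ⟨q, hq⟩ := hD
    exact Finset.prod_eq_zero hq (h q hq).zero
  mul := fun I J ↦ by
    rw [← Finset.prod_mul_distrib]
    exact Finset.prod_congr rfl fun q hq ↦ (h q hq).mul I J
  cop := fun I hI hc ↦ by
    rw [norm_prod]
    refine Finset.prod_eq_one fun q hq ↦ (h q hq).cop I hI ?_
    rw [← Ideal.isCoprime_iff_sup_eq] at hc ⊢
    exact IsCoprime.of_prod_right hc q hq
  ncop := fun I hI hc ↦ by
    by_contra hne
    apply hc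
    rw [← Ideal.isCoprime_iff_sup_eq]
    refine IsCoprime.prod_right fun q hq ↦ ?_
    rw [Ideal.isCoprime_iff_sup_eq]
    by_contra hq'
    exact hne (Finset.prod_eq_zero hq ((h q hq).ncop I hI hq'))
  ray := fun α hα hm ↦ by
    refine Finset.prod_eq_one fun q hq ↦ (h q hq).ray α hα ?_
    exact Ideal.prod_le_inf.trans (Finset.inf_le hq) hm

/-- The values of a ray class character at congruent elements prime to the modulus. -/
lemma rc_congr {𝔪 : Ideal (𝓞 F)} {χ : Ideal (𝓞 F) → ℂ} (h : RC 𝔪 χ) (hm : 𝔪 ≠ ⊤)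
    {α α₀ : 𝓞 F} (h0 : IsCoprime (Ideal.span {α₀}) 𝔪) (hα : α ≠ 0) (hα₀ : α₀ ≠ 0)
    (hc : α - α₀ ∈ 𝔪) : χ (Ideal.span {α}) = χ (Ideal.span {α₀}) := by
  rw [Ideal.isCoprime_iff_sup_eq, Ideal.eq_top_iff_one] at h0
  obtain ⟨y, hy, z, hz, hyz⟩ := Submodule.mem_sup.mp h0
  obtain ⟨β, rfl⟩ := Ideal.mem_span_singleton'.mp hy
  have hβ : β ≠ 0 := by
    rintro rfl
    rw [zero_mul, zero_add] at hyz
    exact hm ((Ideal.eq_top_iff_one 𝔪).mpr (hyz ▸ hz))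
  have h1 : β * α₀ - 1 ∈ 𝔪 := by
    have : β * α₀ - 1 = -z := by rw [← hyz]; ring
    rw [this]; exact 𝔪.neg_mem hz
  have h2 : β * α - 1 ∈ 𝔪 := by
    have : β * α - 1 = (β * α₀ - 1) + β * (α - α₀) := by ring
    rw [this]; exact 𝔪.add_mem h1 (𝔪.mul_mem_left _ hc)
  have e1 := h.ray _ (mul_ne_zero hβ hα₀) h1
  have e2 := h.ray _ (mul_ne_zero hβ hα) h2
  rw [← Ideal.span_singleton_mul_span_singleton, h.mul] at e1 e2
  have hne : χ (Ideal.span {β}) ≠ 0 := by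
    intro h0'
    rw [h0', zero_mul] at e1
    exact zero_ne_one e1
  exact mul_left_cancel₀ hne (e2.trans e1.symm)

/-- The main case: `q₀ ∈ D`, `bs q₀ ∉ bs(D')`. -/
lemma crt_aux (p : ℕ) (B B₀ k U Λ C : Type) [Field k] [AddCommGroup U] [Module k U]
    [AddCommGroup Λ] [Module k Λ] [AddCommGroup C] (S : Sys p B B₀ k U Λ C)
    (𝔪₀ : Ideal (𝓞 F)) (nn : B → Ideal (𝓞 F)) (d : ℕ) (Up Lo : Set B)
    (W : B → HeightOneSpectrum (𝓞 F)) (X : B → Ideal (𝓞 F) → ℂ)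
    (hS : Chs S F 𝔪₀ nn d Up Lo W X) (D D' : Finset B) (hD : ∀ q ∈ D, q ∈ Lo)
    (hD' : ∀ q ∈ D', q ∈ Lo) (hi : Set.InjOn S.bs (D : Set B)) (q₀ : B) (hq₀ : q₀ ∈ D)
    (hn : S.bs q₀ ∉ S.bs '' (D' : Set B)) :
    ∃ α : 𝓞 F, α ≠ 0 ∧
      Ideal.span {α} ⊔ (∏ q ∈ D, (𝔪₀ * nn q)) * ∏ q ∈ D', (𝔪₀ * nn q) = ⊤ ∧
      ∏ q ∈ D, X q (Ideal.span {α}) ≠ ∏ q ∈ D', X q (Ideal.span {α}) := by
  classical
  have hL0 : q₀ ∈ Lo := hD q₀ hq₀
  obtain ⟨α₀, ha1, ha2, ha3⟩ := hS.nt q₀ hL0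
  have hnt : nn q₀ ≠ ⊤ := (hS.nne q₀ hL0).2.1
  set E : Finset B := (D ∪ D').erase q₀ with hE
  have hEm : ∀ q ∈ E, q ∈ Lo ∧ S.bs q ≠ S.bs q₀ := by
    intro q hq
    rw [hE, Finset.mem_erase, Finset.mem_union] at hq
    obtain ⟨hne, hq⟩ := hq
    rcases hq with hq | hq
    · exact ⟨hD q hq, fun h ↦ hne (hi (Finset.mem_coe.mpr hq) (Finset.mem_coe.mpr hq₀) h)⟩
    · exact ⟨hD' q hq, fun h ↦ hn ⟨q, Finset.mem_coe.mpr hq, h⟩⟩
  have hcop : IsCoprime (𝔪₀ * nn q₀) (∏ q ∈ E, nn q) := by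
    refine IsCoprime.prod_right fun q hq ↦ ?_
    obtain ⟨h1, h2⟩ := hEm q hq
    refine IsCoprime.mul_left ?_ ?_
    · rw [isCoprime_comm, Ideal.isCoprime_iff_sup_eq]; exact hS.cop₀ q h1
    · rw [Ideal.isCoprime_iff_sup_eq]; exact hS.cop q₀ hL0 q h1 (Ne.symm h2)
  rw [Ideal.isCoprime_iff_sup_eq, Ideal.eq_top_iff_one] at hcop
  obtain ⟨e, he, r, hr, her⟩ := Submodule.mem_sup.mp hcop
  set α : 𝓞 F := α₀ * r + e with hα
  have hr1 : r = 1 - e := by rw [← her]; ring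
  -- congruences
  have hc0 : α - α₀ ∈ 𝔪₀ * nn q₀ := by
    have : α - α₀ = e * (1 - α₀) := by rw [hα, hr1]; ring
    rw [this]; exact Ideal.mul_mem_right _ _ he
  have hcq : ∀ q ∈ E, α - 1 ∈ 𝔪₀ * nn q := by
    intro q hq
    have : α - 1 = (α₀ - 1) * r := by rw [hα, hr1]; ring
    rw [this]
    refine Ideal.mul_mem_mul ha1 ?_
    exact Ideal.prod_le_inf.trans (Finset.inf_le hq) hr
  -- coprimality of `α₀` and `α` with the modulus of `q₀`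
  have hcα₀ : IsCoprime (Ideal.span {α₀}) (𝔪₀ * nn q₀) := by
    refine IsCoprime.mul_right (coprime_span_of_sub_one_mem ha1) ?_
    rw [Ideal.isCoprime_iff_sup_eq]; exact ha2
  have hα₀0 : α₀ ≠ 0 := by
    rintro rfl
    apply hnt
    rw [← ha2]
    simp
  have hcα : IsCoprime (Ideal.span {α}) (𝔪₀ * nn q₀) := by
    rw [Ideal.isCoprime_iff_sup_eq, Ideal.eq_top_iff_one] at hcα₀ ⊢
    obtain ⟨y, hy, z, hz, hyz⟩ := Submodule.mem_sup.mp hcα₀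
    obtain ⟨β, rfl⟩ := Ideal.mem_span_singleton'.mp hy
    have h1 : (1 : 𝓞 F) = β * α + (z - β * (α - α₀)) := by rw [← hyz]; ring
    rw [h1]
    exact Submodule.add_mem_sup (Ideal.mul_mem_left _ _ (Ideal.mem_span_singleton_self α))
      (Ideal.sub_mem _ hz (Ideal.mul_mem_left _ _ hc0))
  have hm0 : 𝔪₀ * nn q₀ ≠ ⊤ := fun h ↦ hnt (top_le_iff.mp (h ▸ (Ideal.mul_le_right : 𝔪₀ * nn q₀ ≤ nn q₀)))
  have hα0 : α ≠ 0 := by
    intro h
    rw [h, Ideal.isCoprime_iff_sup_eq] at hcα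
    apply hm0
    rw [← hcα]
    simp
  have hq0val : X q₀ (Ideal.span {α}) = X q₀ (Ideal.span {α₀}) :=
    rc_congr (hS.rc q₀ hL0) hm0 hcα₀ hα0 hα₀0 hc0
  have hq1 : ∀ q ∈ E, X q (Ideal.span {α}) = 1 := fun q hq ↦
    (hS.rc q (hEm q hq).1).ray α hα0 (hcq q hq)
  have hcopq : ∀ q ∈ D ∪ D', IsCoprime (Ideal.span {α}) (𝔪₀ * nn q) := by
    intro q hq
    by_cases h : q = q₀
    · rw [h]; exact hcα
    · exact coprime_span_of_sub_one_mem (hcq q (Finset.mem_erase.mpr ⟨h, hq⟩))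
  have hq₀' : q₀ ∉ D' := fun h ↦ hn ⟨q₀, Finset.mem_coe.mpr h, rfl⟩
  refine ⟨α, hα0, ?_, ?_⟩
  · rw [← Ideal.isCoprime_iff_sup_eq]
    refine IsCoprime.mul_right ?_ ?_
    · exact IsCoprime.prod_right fun q hq ↦ hcopq q (Finset.mem_union_left _ hq)
    · exact IsCoprime.prod_right fun q hq ↦ hcopq q (Finset.mem_union_right _ hq)
  · have h1 : ∏ q ∈ D', X q (Ideal.span {α}) = 1 := by
      refine Finset.prod_eq_one fun q hq ↦ hq1 q ?_
      rw [hE, Finset.mem_erase]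
      exact ⟨fun h ↦ hq₀' (h ▸ hq), Finset.mem_union_right _ hq⟩
    have h2 : ∏ q ∈ D, X q (Ideal.span {α}) = X q₀ (Ideal.span {α₀}) := by
      rw [← Finset.mul_prod_erase D _ hq₀, hq0val, Finset.prod_eq_one, mul_one]
      intro q hq
      refine hq1 q ?_
      rw [Finset.mem_erase] at hq
      rw [hE, Finset.mem_erase]
      exact ⟨hq.1, Finset.mem_union_left _ hq.2⟩
    rw [h1, h2]
    exact ha3

theorem a2_crt : Pool.Agent.Helper51.PP.A2_CRT := by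
  classical
  intro p B B₀ k U Λ C _ _ _ _ _ _ S F _ _ 𝔪₀ nn d Up Lo W X hS
  refine ⟨fun D hD hne ↦ rc_prod D hne (fun q ↦ 𝔪₀ * nn q) X fun q hq ↦ hS.rc q (hD q hq), ?_⟩
  intro D D' hD hD' hi hi' hne
  by_cases h : ∃ q ∈ D, S.bs q ∉ S.bs '' (D' : Set B)
  · obtain ⟨q, hq, hn⟩ := h
    exact crt_aux p B B₀ k U Λ C S 𝔪₀ nn d Up Lo W X hS D D' hD hD' hi q hq hn
  · by_cases h' : ∃ q ∈ D', S.bs q ∉ S.bs '' (D : Set B)
    · obtain ⟨q, hq, hn⟩ := h'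
      obtain ⟨α, h1, h2, h3⟩ :=
        crt_aux p B B₀ k U Λ C S 𝔪₀ nn d Up Lo W X hS D' D hD' hD hi' q hq hn
      refine ⟨α, h1, ?_, Ne.symm h3⟩
      rw [mul_comm]; exact h2
    · exfalso
      push Not at h h'
      apply hne
      apply Set.Subset.antisymm
      · rintro _ ⟨q, hq, rfl⟩
        exact h q hq
      · rintro _ ⟨q, hq, rfl⟩
        exact h' q hq

end Pool.Agent.Helper64.PP
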