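import Pool.Agent.Helper42.PP.Goals1
import Pool.Agent.Helper42.RD.EXA
import Pool.Agent.Helper8.RD.SHF
import Pool.Agent.Helper14.RD.TOW
import Pool.Agent.Helper11.RP.NSP
import Pool.Agent.Helper90.RP.DUAL
import Pool.Agent.Helper90.RP.SUB
import Pool.Agent.Helper96.RP.UPB
import Pool.Agent.Helper19.RP.LEM
import Pool.Agent.Helper9.RS.EIG
import Pool.Agent.Helper39.RP.SIG
import Pool.Agent.Helper95.RP.LAT
import Pool.Agent.Helper32.RP.LOB
import Pool.Agent.Helper59.RP.BIN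
import Pool.Agent.Helper99.RP.PRM

/-!
# Project PP (MP_fc6b1e_nt): packet P_EXT

Existence of `Tau`: enough conditions at `S` and at the places of `T`.
-/

set_option autoImplicit false

namespace Pool.Agent.Helper64.PP

open NumberField Polynomial Module IsDedekindDomain Pool.Agent.Helper51.SigLeo
open Pool.Agent.Helper51.RP Pool.Agent.Helper42.RD Pool.Agent.Helper42.PP
open Pool.Agent.Helper40.RS (bel gw bel_smul lies conj_of_bel free_gw absNorm_free val_smul)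
open Pool.Agent.Helper13.RD (eq_gw ram_free exists_unif)
open Pool.Agent.Helper40.RD (bel_of_above ordW)

section residue

variable {F : Type} [Field F] [NumberField F] {p : ℕ} [Fact p.Prime]

/-- `p` divides `N(Q) - 1` if there is a primitive `p`-th root of unity. -/
theorem norm_dvd {ε : F} (hε : IsPrimitiveRoot ε p) (Q : HeightOneSpectrum (𝓞 F))
    (hQ : Q.valuation F (p : F) = 1) : p ∣ Ideal.absNorm Q.asIdeal - 1 := by
  have hp : p.Prime := Fact.out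
  have hQm : Q.asIdeal.IsMaximal := Q.isMaximal
  let _ : Field (𝓞 F ⧸ Q.asIdeal) := Ideal.Quotient.field _
  have hcard : Nat.card (𝓞 F ⧸ Q.asIdeal)ˣ = Ideal.absNorm Q.asIdeal - 1 := by
    rw [Nat.card_units, Ideal.absNorm_apply, Submodule.cardQuot_apply]
  let e : 𝓞 F := ⟨ε, hε.isIntegral hp.pos⟩
  have hepow : e ^ p = 1 := by
    apply RingOfIntegers.ext
    show ε ^ p = 1
    exact hε.pow_eq_one
  have hu : (Ideal.Quotient.mk Q.asIdeal e) ^ p = 1 := by rw [← map_pow, hepow, map_one]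
  have he1 : e ≠ 1 := by
    intro h
    exact hε.ne_one hp.one_lt (congrArg (fun z : 𝓞 F => (z : F)) h)
  have hne : Ideal.Quotient.mk Q.asIdeal e ≠ 1 := by
    intro h
    have h1 : e - 1 ∈ Q.asIdeal := by
      rw [← Ideal.Quotient.eq_zero_iff_mem, map_sub, h, map_one, sub_self]
    exact (natCast_notMem_iff Q p).2 hQ (Ideal.mem_of_dvd _ (sub_one_dvd hepow he1) h1)
  obtain ⟨u, hu1⟩ : ∃ u : (𝓞 F ⧸ Q.asIdeal)ˣ, (u : 𝓞 F ⧸ Q.asIdeal) =
      Ideal.Quotient.mk Q.asIdeal e := by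
    have h0 : Ideal.Quotient.mk Q.asIdeal e ≠ 0 := by
      intro h
      rw [h, zero_pow hp.ne_zero] at hu
      exact zero_ne_one hu
    exact ⟨Units.mk0 _ h0, rfl⟩
  have hord : orderOf u = p := by
    refine orderOf_eq_prime ?_ ?_
    · apply Units.ext
      rw [Units.val_pow_eq_pow_val, hu1, hu, Units.val_one]
    · intro h
      apply hne
      rw [← hu1, h, Units.val_one]
  rw [← hcard, ← hord]
  exact orderOf_dvd_natCard u

end residue

section omt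

variable {K K₁ : Type} [Field K] [Field K₁] [NumberField K₁] [Algebra K K₁] {p : ℕ}

/-- Change of the prime for an element of type `ω`. -/
theorem omt_dvd {ε : K₁} {a : K₁ˣ} (ha : OmType p K ε (a : K₁)) (hp : p ≠ 0)
    {Q Q₁ : HeightOneSpectrum (𝓞 K₁)} (h : ConjP K Q₁ Q) (hd : (p : ℤ) ∣ ordv Q₁ (a : K₁)) :
    (p : ℤ) ∣ ordv Q (a : K₁) := by
  obtain ⟨g, hg⟩ := h
  obtain ⟨n, c, -, hc⟩ := ha g
  have hga : g (a : K₁) ≠ 0 := by
    intro h
    have := congrArg g.symm h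
    rw [AlgEquiv.symm_apply_apply, map_zero] at this
    exact a.ne_zero this
  have hc0 : c ≠ 0 := by
    rintro rfl
    rw [zero_pow hp, mul_zero] at hc
    exact hga hc
  have h1 : ordv Q (a : K₁) = ordv Q₁ (g (a : K₁)) := (ordv_conj g hg _).symm
  rw [h1, hc, ordv_mul _ (pow_ne_zero _ a.ne_zero) (pow_ne_zero _ hc0), ordv_pow, ordv_pow]
  exact dvd_add (hd.mul_left _) (dvd_mul_right _ _)

end omt

section approx

variable {K K₁ : Type} [Field K] [NumberField K] [Field K₁] [NumberField K₁] [Algebra K K₁]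
  [IsGalois K K₁]

/-- The residue field does not grow at a prime with trivial decomposition group. -/
theorem exists_res (Q : HeightOneSpectrum (𝓞 K₁)) (hf : FreeP K Q) (c : 𝓞 K₁) :
    ∃ c₀ : 𝓞 K, c - algebraMap (𝓞 K) (𝓞 K₁) c₀ ∈ Q.asIdeal := by
  have h1 := absNorm_free (K := K) Q hf
  rw [Ideal.absNorm_apply, Ideal.absNorm_apply, Submodule.cardQuot_apply,
    Submodule.cardQuot_apply] at h1
  have hfin : Finite (𝓞 K₁ ⧸ Q.asIdeal) :=
    Q.asIdeal.finiteQuotientOfFreeOfNeBot Q.ne_bot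
  have hfin' : Finite (𝓞 K ⧸ (bel K Q).asIdeal) :=
    (bel K Q).asIdeal.finiteQuotientOfFreeOfNeBot (bel K Q).ne_bot
  have hlies := lies (K := K) Q
  have hinj : Function.Injective
      (algebraMap (𝓞 K ⧸ (bel K Q).asIdeal) (𝓞 K₁ ⧸ Q.asIdeal)) := by
    have hqm : (bel K Q).asIdeal.IsMaximal := (bel K Q).isMaximal
    have hQm : Q.asIdeal.IsMaximal := Q.isMaximal
    let _ : Field (𝓞 K ⧸ (bel K Q).asIdeal) := Ideal.Quotient.field _
    let _ : Field (𝓞 K₁ ⧸ Q.asIdeal) := Ideal.Quotient.field _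
    exact (algebraMap (𝓞 K ⧸ (bel K Q).asIdeal) (𝓞 K₁ ⧸ Q.asIdeal)).injective
  have hbij : Function.Bijective
      (algebraMap (𝓞 K ⧸ (bel K Q).asIdeal) (𝓞 K₁ ⧸ Q.asIdeal)) :=
    (Nat.bijective_iff_injective_and_card _).2 ⟨hinj, h1.symm⟩
  obtain ⟨y, hy⟩ := hbij.2 (Ideal.Quotient.mk _ c)
  obtain ⟨c₀, rfl⟩ := Ideal.Quotient.mk_surjective y
  refine ⟨c₀, ?_⟩
  rw [← Ideal.Quotient.eq_zero_iff_mem, map_sub, ← hy, sub_eq_zero]
  rfl

/-- `K` is dense in the completion at a prime with trivial decomposition group. -/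
theorem exists_close (Q : HeightOneSpectrum (𝓞 K₁)) (hf : FreeP K Q) (t : K₁) (ht : t ≠ 0) :
    ∃ α : K, Q.valuation K₁ (algebraMap K K₁ α / t - 1) < 1 := by
  obtain ⟨π, hπ⟩ := exists_unif (K := K) Q hf
  have hπ0 : algebraMap K K₁ π ≠ 0 := by
    intro h
    rw [h, map_zero] at hπ
    exact WithZero.exp_ne_zero hπ.symm
  have hoπ : ordv Q (algebraMap K K₁ π) = 1 := by
    unfold ordv
    rw [hπ, WithZero.log_exp]
    norm_num
  set n : ℤ := ordv Q t with hn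
  set t' : K₁ := t * (algebraMap K K₁ π) ^ (-n) with ht'
  have ht'0 : t' ≠ 0 := mul_ne_zero ht (zpow_ne_zero _ hπ0)
  have hvt : Q.valuation K₁ t' = 1 := by
    rw [← ordv_eq_zero_iff Q ht'0, ht', ordv_mul Q ht (zpow_ne_zero _ hπ0), ordv_zpow Q hπ0, hoπ]
    ring
  obtain ⟨c, hc, hct⟩ := exists_int_close Q hvt
  obtain ⟨c₀, hc₀⟩ := exists_res (K := K) Q hf c
  have hvc := val_of_notMem Q hc
  have hc0 : (c : K₁) ≠ 0 := by intro h0; rw [h0, map_zero] at hvc; exact zero_ne_one hvc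
  have h1 : Q.valuation K₁ (((algebraMap (𝓞 K) (𝓞 K₁) c₀ : 𝓞 K₁) : K₁) / c - 1) < 1 := by
    refine val_div_of_sub_mem Q hc ?_
    have h := Q.asIdeal.neg_mem hc₀
    rwa [neg_sub] at h
  refine ⟨(c₀ : K) * π ^ n, ?_⟩
  have e : algebraMap K K₁ ((c₀ : K) * π ^ n) / t =
      ((c : K₁) / t') * (((algebraMap (𝓞 K) (𝓞 K₁) c₀ : 𝓞 K₁) : K₁) / c) := by
    have e1 : ((algebraMap (𝓞 K) (𝓞 K₁) c₀ : 𝓞 K₁) : K₁) = algebraMap K K₁ (c₀ : K) := rfl
    rw [e1, map_mul, map_zpow₀, ht', zpow_neg]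
    have hz := zpow_ne_zero n hπ0
    field_simp
  rw [e]
  exact val_mul_sub Q hct h1

/-- The uniformizer of `K` attached to `a` at the prime `Q`. -/
theorem exists_al {p : ℕ} [Fact p.Prime] (Q : HeightOneSpectrum (𝓞 K₁)) (hf : FreeP K Q)
    (a : K₁) (ha : a ≠ 0) (hd : ¬ (p : ℤ) ∣ ordv Q a) :
    ∃ α : K, ordv Q (algebraMap K K₁ α) = 1 ∧
      ∃ j : ℕ, LocPow p Q ((-1) ^ (p - 1) * a * (algebraMap K K₁ α) ^ j) := by
  have hp : p.Prime := Fact.out
  have hsg0 : ((-1 : K₁) ^ (p - 1)) ≠ 0 := left_ne_zero_of_mul_eq_one (sg_sq (F := K₁) (p - 1))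
  set b : K₁ := (-1) ^ (p - 1) * a with hb
  have hb0 : b ≠ 0 := mul_ne_zero hsg0 ha
  have hob : ordv Q b = ordv Q a := ordv_sg Q (p - 1) a
  set n : ℤ := ordv Q a with hn
  obtain ⟨π, hπ⟩ := exists_unif (K := K) Q hf
  have hπ0 : algebraMap K K₁ π ≠ 0 := by
    intro h
    rw [h, map_zero] at hπ
    exact WithZero.exp_ne_zero hπ.symm
  have hoπ : ordv Q (algebraMap K K₁ π) = 1 := by
    unfold ordv
    rw [hπ, WithZero.log_exp]
    norm_num
  set ϖ : K₁ := algebraMap K K₁ π with hϖ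
  have hcop : IsCoprime n (p : ℤ) := by
    rw [isCoprime_comm]
    exact (Nat.prime_iff_prime_int.1 hp).coprime_iff_not_dvd.2 hd
  obtain ⟨i, j', hij⟩ := hcop
  set t : K₁ := b ^ i * ϖ ^ (j' * p) with ht
  have ht0 : t ≠ 0 := mul_ne_zero (zpow_ne_zero _ hb0) (zpow_ne_zero _ hπ0)
  have hot : ordv Q t = 1 := by
    rw [ht, ordv_mul Q (zpow_ne_zero _ hb0) (zpow_ne_zero _ hπ0), ordv_zpow Q hb0,
      ordv_zpow Q hπ0, hob, hoπ]
    linear_combination hij
  obtain ⟨α, hα⟩ := exists_close (K := K) Q hf t ht0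
  have hoα : ordv Q (algebraMap K K₁ α) = 1 := by rw [ordv_eq_of_div Q ht0 hα, hot]
  refine ⟨α, hoα, ?_⟩
  obtain ⟨j, l, hjl⟩ : ∃ (j : ℕ) (l : ℤ), 1 + i * j = l * p := by
    refine ⟨((-n) % (p : ℤ)).toNat, ?_⟩
    have h0 : 0 ≤ (-n) % (p : ℤ) := Int.emod_nonneg _ (by exact_mod_cast hp.ne_zero)
    rw [Int.toNat_of_nonneg h0]
    refine ⟨j' - i * ((-n) / (p : ℤ)), ?_⟩
    have h1 := Int.emod_add_mul_ediv (-n) (p : ℤ)
    have h2 : (-n) % (p : ℤ) = -n - p * ((-n) / (p : ℤ)) := by linarith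
    rw [h2]
    linear_combination (-1 : ℤ) * hij
  refine ⟨j, ?_⟩
  have hα0 : algebraMap K K₁ α ≠ 0 := by
    intro h0
    unfold ordv at hoα
    rw [h0, map_zero, WithZero.log_zero] at hoα
    norm_num at hoα
  have e : b * (algebraMap K K₁ α) ^ j =
      (algebraMap K K₁ α / t) ^ j * (b ^ l * ϖ ^ (j' * j)) ^ p := by
    have e1 : (b ^ l * ϖ ^ (j' * j)) ^ p = b * t ^ j := by
      rw [ht, mul_pow, mul_pow, ← zpow_natCast (b ^ l) p, ← zpow_mul, ← hjl,
        ← zpow_natCast (ϖ ^ (j' * (j : ℤ))) p, ← zpow_mul, ← zpow_natCast (b ^ i) j, ← zpow_mul,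
        ← zpow_natCast (ϖ ^ (j' * (p : ℤ))) j, ← zpow_mul, zpow_add₀ hb0, zpow_one]
      have e2 : j' * (j : ℤ) * (p : ℤ) = j' * (p : ℤ) * (j : ℤ) := by ring
      rw [e2]
      ring
    rw [e1, div_pow]
    field_simp
  rw [e, locPow_mul_pth Q (mul_ne_zero (zpow_ne_zero _ hb0) (zpow_ne_zero _ hπ0))]
  exact locPow_pow Q (locPow_of_sub Q hα) j

end approx

section pol

variable {p : ℕ} {K M : Type} [Field K] [Field M] [Algebra K M] (δ : M ≃ₐ[K] M)

theorem pol_ap (P : (ZMod p)[X]) (x : Mˣ) :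
    pol P δ x = ∏ j ∈ P.support, (act (δ ^ j) x) ^ (P.coeff j).val := by
  unfold pol
  rw [MonoidHom.finsetProd_apply]
  rfl

theorem act_act (i j : ℕ) (x : Mˣ) : act (δ ^ i) (act (δ ^ j) x) = act (δ ^ (i + j)) x := by
  apply Units.ext
  show (δ ^ i) ((δ ^ j) (x : M)) = (δ ^ (i + j)) (x : M)
  rw [pow_add]
  rfl

theorem pol_cm (P c : (ZMod p)[X]) (x : Mˣ) : pol P δ (pol c δ x) = pol c δ (pol P δ x) := by
  rw [pol_ap δ P, pol_ap δ c, pol_ap δ c (pol P δ x), pol_ap δ P x]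
  simp_rw [map_prod, map_pow, act_act, ← Finset.prod_pow]
  rw [Finset.prod_comm]
  refine Finset.prod_congr rfl fun i _ => Finset.prod_congr rfl fun j _ => ?_
  rw [add_comm i j]
  exact pow_right_comm _ _ _

theorem pw_mul {x y : Mˣ} (hx : Pw p x) (hy : Pw p y) : Pw p (x * y) := by
  obtain ⟨a, rfl⟩ := hx
  obtain ⟨b, rfl⟩ := hy
  exact ⟨a * b, (mul_pow a b p).symm⟩

theorem pw_pol (c : (ZMod p)[X]) {x : Mˣ} (hx : Pw p x) : Pw p (pol c δ x) := by
  obtain ⟨a, rfl⟩ := hx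
  exact ⟨pol c δ a, map_pow _ _ _⟩

theorem pw_prod {n : ℕ} (x : Fin n → Mˣ) (h : ∀ i, Pw p (x i)) : Pw p (∏ i, x i) := by
  choose y hy using h
  refine ⟨∏ i, y i, ?_⟩
  rw [← Finset.prod_pow]
  exact Finset.prod_congr rfl fun i _ => hy i

end pol

section unit

variable {K M : Type} [Field K] [Field M] [NumberField M] [Algebra K M]

theorem unit_act {S : Set (HeightOneSpectrum (𝓞 M))} (hst : ∀ w ∈ S, ∀ w', ConjP K w' w → w' ∈ S)
    (g : M ≃ₐ[K] M) {x : Mˣ} (hx : x ∈ S.unit M) : act g x ∈ S.unit M := by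
  have hU : ∀ y : Mˣ, y ∈ S.unit M ↔ ∀ v, v ∉ S → v.valuation M (y : M) = 1 := fun y => Iff.rfl
  rw [hU] at hx ⊢
  intro v hv
  obtain ⟨w, hw⟩ := Pool.Agent.Helper90.RP.Dual.exists_conj (K := K) g⁻¹ v
  have hwv : ∀ u : M, w.valuation M u = v.valuation M (g u) := by
    intro u
    have h7 := hw (g u)
    have h8 : (g⁻¹ : M ≃ₐ[K] M) (g u) = u := AlgEquiv.symm_apply_apply g u
    rw [h8] at h7
    exact h7
  have hwS : w ∉ S := fun h => hv (hst w h v ⟨g, fun u => (hwv u).symm⟩)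
  show v.valuation M (g (x : M)) = 1
  rw [← hwv]
  exact hx w hwS

theorem unit_pol {p : ℕ} {S : Set (HeightOneSpectrum (𝓞 M))}
    (hst : ∀ w ∈ S, ∀ w', ConjP K w' w → w' ∈ S) (δ : M ≃ₐ[K] M) (c : (ZMod p)[X]) {x : Mˣ}
    (hx : x ∈ S.unit M) : pol c δ x ∈ S.unit M := by
  rw [pol_ap]
  exact Subgroup.prod_mem _ fun j _ => Subgroup.pow_mem _ (unit_act hst _ hx) _

end unit

theorem hom_prod {F A : Type} [Field F] [AddCommGroup A] {f : Fˣ → A} (hf : Hom f) {n : ℕ}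
    (x : Fin n → Fˣ) : f (∏ i, x i) = ∑ i, f (x i) := by
  have h0 : f 1 = 0 := by
    have h := hf 1 1
    rw [mul_one] at h
    simpa using h
  let g : Fˣ →* Multiplicative A :=
    { toFun := fun x => Multiplicative.ofAdd (f x)
      map_one' := by rw [h0]; rfl
      map_mul' := fun x y => by rw [hf]; rfl }
  have h := map_prod g x Finset.univ
  have h2 := congrArg Multiplicative.toAdd h
  rw [toAdd_prod] at h2
  exact h2

theorem hom_div {F A : Type} [Field F] [AddCommGroup A] {f : Fˣ → A} (hf : Hom f) (x y : Fˣ) :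
    f (x / y) = f x - f y := by
  have h := hf (x / y) y
  rw [div_mul_cancel] at h
  exact eq_sub_of_add_eq h.symm

/-- The rank of the `P`-part of the `S`-units. -/
theorem rank_le (h2 : P_FUN) {p : ℕ} [Fact p.Prime] {k : Type} [NormedField k]
    [NormedAlgebra ℚ_[p] k] {K M K₁ M₁ : Type} [Field K] [NumberField K] [IsTotallyComplex K]
    [Field M] [NumberField M] [Field K₁] [NumberField K₁] [Field M₁] [NumberField M₁] [Algebra K M]
    [Algebra K K₁] [Algebra K M₁] [Algebra M M₁] [Algebra K₁ M₁] [IsGalois K M] {ε : K₁}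
    {m d s₀ : ℕ} {δ : M ≃ₐ[K] M} {ζ : k} {Φ : ℤ_[p][X]} {P : (ZMod p)[X]}
    (hPhi : PhiData p m ζ Φ P) (hord : orderOf δ = m) (hfr : finrank K M = m)
    (hd : finrank ℚ K = 2 * d) (htor : TorOK P δ) (B : Base p K M K₁ M₁ ε δ P)
    (hSf : (up M B.S).Finite) (hst : ∀ w ∈ up M B.S, ∀ w', ConjP K w' w → w' ∈ up M B.S)
    (hs₀ : {w ∈ up M B.S | FreeP K w}.ncard = m * s₀) : B.r ≤ d + s₀ := by
  classical
  have hp : p.Prime := Fact.out
  have upb : S_UPB := Pool.Agent.Helper96.RP.s_upb Pool.Agent.Helper19.RP.s_lem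
    Pool.Agent.Helper9.RS.s_eig
  have hδm : δ ^ m = 1 := by rw [← hord]; exact pow_orderOf_eq_one δ
  have hm0 : 0 < m := lt_trans zero_lt_one hPhi.one_lt
  obtain ⟨hF, -⟩ := h2 p K M m δ P hm0 hPhi.copm hδm hPhi.irr hPhi.dvdP
  have hirr : Fact (Irreducible P) := ⟨hPhi.irr⟩
  have hP0 : P ≠ 0 := hPhi.irr.ne_zero
  have hfd : FiniteDimensional (ZMod p) (AdjoinRoot P) := (AdjoinRoot.powerBasis hP0).finite
  have hfin : Finite (AdjoinRoot P) := Module.finite_of_finite (ZMod p)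
  have hft : Fintype (AdjoinRoot P) := Fintype.ofFinite _
  have hcard : Fintype.card (AdjoinRoot P) = p ^ P.natDegree := by
    rw [Module.card_eq_pow_finrank (K := ZMod p) (V := AdjoinRoot P), ZMod.card,
      (AdjoinRoot.powerBasis hP0).finrank, AdjoinRoot.powerBasis_dim]
  choose c hc using fun z : AdjoinRoot P => AdjoinRoot.mk_surjective (g := P) z
  let e : (Fin B.r → AdjoinRoot P) → Mˣ := fun z => ∏ i, pol (c (z i)) δ (B.u i)
  have hrho : ∀ z i, B.rho i (e z) = z i := by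
    intro z i
    show B.rho i (∏ j, pol (c (z j)) δ (B.u j)) = z i
    rw [hom_prod (B.rhoP i).1]
    have h : ∀ j, B.rho i (pol (c (z j)) δ (B.u j)) = if i = j then z j else 0 := by
      intro j
      rw [(hF _ (B.rhoP i)).1, hc, B.rhou]
      split_ifs <;> simp
    rw [Finset.sum_congr rfl fun j _ => h j, Finset.sum_ite_eq]
    simp
  have hinj : ∀ z z', Pw p (e z / e z') → z = z' := by
    intro z z' h
    funext i
    have h1 := (hF _ (B.rhoP i)).2 _ h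
    rw [hom_div (B.rhoP i).1, hrho, hrho, sub_eq_zero] at h1
    exact h1
  have hpw1 : Pw p (1 : Mˣ) := ⟨1, (one_pow p).symm⟩
  have hinj' : Function.Injective e := by
    intro z z' h
    refine hinj z z' ?_
    rw [h, div_self']
    exact hpw1
  have hle := upb p k K M m d s₀ δ ζ Φ P hPhi hord hfr hd htor (up M B.S) hSf hst hs₀
    (Finset.univ.image e)
    (by
      intro x hx
      obtain ⟨z, -, rfl⟩ := Finset.mem_image.1 hx
      refine ⟨Subgroup.prod_mem _ fun i _ => unit_pol hst δ _ (B.uS i), ?_⟩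
      show Pw p (pol P δ (∏ i, pol (c (z i)) δ (B.u i)))
      rw [map_prod]
      refine pw_prod _ fun i => ?_
      rw [pol_cm]
      exact pw_pol δ _ (B.uP i))
    (by
      intro x hx y hy hxy
      obtain ⟨z, -, rfl⟩ := Finset.mem_image.1 hx
      obtain ⟨z', -, rfl⟩ := Finset.mem_image.1 hy
      intro h
      exact hxy (by rw [hinj z z' h]))
  rw [Finset.card_image_of_injective _ hinj', Finset.card_univ, Fintype.card_fun, hcard,
    Fintype.card_fin, ← pow_mul] at hle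
  have h3 := (Nat.pow_le_pow_iff_right hp.one_lt).1 hle
  exact Nat.le_of_mul_le_mul_left h3 hPhi.irr.natDegree_pos

theorem locSig_mul_pow {p : ℕ} {k : Type} [NormedField k] {M : Type} [Field M]
    (L : IwasawaLog p k) (T : Set (M →+* k)) (x y : Mˣ) (h : LocSig L T (x * y ^ p)) :
    LocSig L T x := by
  intro N
  obtain ⟨z, hz⟩ := h N
  refine ⟨y * z, ?_⟩
  rw [mul_pow, ← mul_assoc]
  exact hz

theorem cancel_aux {F : Type} [Field F] (x b c : F) (hb : b ≠ 0) (i j : ℕ) :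
    x * b ^ i * ((b * c ^ j) ^ i)⁻¹ = x * c ^ (-((j * i : ℕ) : ℤ)) := by
  rw [zpow_neg, zpow_natCast, mul_pow, ← pow_mul, mul_inv, ← mul_assoc, mul_assoc x (b ^ i),
    mul_inv_cancel₀ (pow_ne_zero i hb), mul_one]

theorem trunc {κ X : Type} [CommRing κ] {r N : ℕ} (hle : r ≤ N) (h : Fin N → X → κ)
    (hI : ∀ c : Fin N → κ, (∀ x, ∑ j, c j * h j x = 0) → c = 0) :
    ∀ c : Fin r → κ, (∀ x, ∑ j, c j * h (Fin.castLE hle j) x = 0) → c = 0 := by
  obtain ⟨s, rfl⟩ := Nat.exists_eq_add_of_le hle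
  intro c hc
  have h1 := hI (Fin.append c 0) (fun x => by
    rw [Fin.sum_univ_add]
    simp only [Fin.append_left, Fin.append_right, Pi.zero_apply, zero_mul,
      Finset.sum_const_zero, add_zero]
    exact hc x)
  funext j
  have h2 := congrFun h1 (Fin.castAdd s j)
  rw [Fin.append_left] at h2
  exact h2

/-- **P_EXT.** -/
theorem p_ext (h1 : P_SEP) (h2 : P_FUN) (h3 : P_UPR) (h4 : P_LFI) (h5 : P_OMG) :
    Pool.Agent.Helper42.PP.P_EXT := by
  classical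
  intro p hp k _ _ _ _ hk L K M K₁ M₁ _ _ _ _ _ _ _ _ _ _ _ _ _ _ _ _ _ _ _ ε hT m δ ζ Φ P
    hPhi hord hfr htor T hTc hd B a haO hap
  have hp' : p.Prime := hp.out
  obtain ⟨hG1, hG2, hc1, hc2, -, -⟩ := Pool.Agent.Helper14.RD.e_tow p K M K₁ M₁ ε hT
  have hTRF : E_TRF := Pool.Agent.Helper40.RD.e_trf
  have sig : S_SIG := Pool.Agent.Helper39.RP.s_sig Pool.Agent.Helper95.RP.s_lat
  have lob : S_LOB := Pool.Agent.Helper32.RP.s_lob Pool.Agent.Helper90.RP.s_sub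
    Pool.Agent.Helper59.RP.s_bin sig Pool.Agent.Helper99.RP.s_prm
  have hδm : δ ^ m = 1 := by rw [← hord]; exact pow_orderOf_eq_one δ
  have hm0 : 0 < m := lt_trans zero_lt_one hPhi.one_lt
  have hcK₁ : (finrank K K₁).Coprime p := by
    have hd3 := Pool.Agent.Helper14.RD.finrank_dvd_pred p K K₁ ε hT.prim hT.gen
    have hc1 : (p - 1).Coprime p := by
      have h := hp'.one_lt
      have h2 : (p - 1).Coprime (p - 1 + 1) := by simp
      rwa [Nat.sub_add_cancel h.le] at h2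
    exact Nat.Coprime.coprime_dvd_left hd3 hc1
  obtain ⟨-, -, -, hOM, -⟩ := h5 p K K₁ ε hT.prim hT.gen hcK₁
  obtain ⟨hSf, hst, hSp, -, -, -, -⟩ := h3 p K M B.S
  have hSp' := hSp B.abp
  -- the primes of `K₁` at which the valuation of `a` is prime to `p`
  have hQall : ∀ Q Q₁ : HeightOneSpectrum (𝓞 K₁), bel K Q = bel K Q₁ →
      ¬ (p : ℤ) ∣ ordv Q (a : K₁) → ¬ (p : ℤ) ∣ ordv Q₁ (a : K₁) := by
    intro Q Q₁ h hQ hQ₁
    exact hQ (omt_dvd haO hp'.ne_zero (conj_of_bel' (K := K) h.symm) hQ₁)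
  have hQfree : ∀ Q : HeightOneSpectrum (𝓞 K₁), ¬ (p : ℤ) ∣ ordv Q (a : K₁) → FreeP K Q := by
    intro Q hQ
    by_contra h
    exact hQ (hOM a haO Q h)
  have hQp : ∀ Q : HeightOneSpectrum (𝓞 K₁), ¬ (p : ℤ) ∣ ordv Q (a : K₁) →
      Q.valuation K₁ (p : K₁) = 1 := by
    intro Q hQ
    have h1 : Q.valuation K₁ ((p : 𝓞 K₁) : K₁) ≤ 1 := Q.valuation_le_one (K := K₁) (p : 𝓞 K₁)
    have e : ((p : 𝓞 K₁) : K₁) = p := map_natCast (algebraMap (𝓞 K₁) K₁) p
    rw [e] at h1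
    by_contra h
    exact hQ (hap Q (lt_of_le_of_ne h1 h))
  have hal : ∀ q : HeightOneSpectrum (𝓞 K), ∃ α : K,
      (∃ Q : HeightOneSpectrum (𝓞 K₁), bel K Q = q ∧ ¬ (p : ℤ) ∣ ordv Q (a : K₁)) →
      (ordv q α = 1 ∧ ∀ Q₁ : HeightOneSpectrum (𝓞 K₁), bel K Q₁ = q →
        ∃ j : ℕ, LocPow p Q₁ ((-1) ^ (p - 1) * (a : K₁) * (algebraMap K K₁ α) ^ j)) := by
    intro q
    by_cases h : ∃ Q : HeightOneSpectrum (𝓞 K₁), bel K Q = q ∧ ¬ (p : ℤ) ∣ ordv Q (a : K₁)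
    · obtain ⟨Q, hQq, hQ⟩ := h
      obtain ⟨α, hα, hj⟩ := exists_al (K := K) Q (hQfree Q hQ) (a : K₁) a.ne_zero hQ
      refine ⟨α, fun _ => ⟨?_, fun Q₁ hQ₁ => ?_⟩⟩
      · rw [ordW (M := K) Q, ram_free Q (hQfree Q hQ), Nat.cast_one, one_mul, hQq] at hα
        exact hα
      · exact (Pool.Agent.Helper8.RD.e_shf p K K₁ ε hT.prim (a : K₁) a.ne_zero haO Q Q₁
          (conj_of_bel' (K := K) (hQ₁.trans hQq.symm)) hQ α hj).2
    · exact ⟨0, fun h' => absurd h' h⟩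
  choose alq halq using hal
  obtain ⟨R, hRdef⟩ : ∃ R : Set (HeightOneSpectrum (𝓞 M)), R = {w | w ∈ up M B.S ∧ FreeP K w ∧
      ∃ Q : HeightOneSpectrum (𝓞 K₁), bel K Q = bel K w ∧ ¬ (p : ℤ) ∣ ordv Q (a : K₁)} :=
    ⟨_, rfl⟩
  have hRm : ∀ w, w ∈ R ↔ (w ∈ up M B.S ∧ FreeP K w ∧
      ∃ Q : HeightOneSpectrum (𝓞 K₁), bel K Q = bel K w ∧ ¬ (p : ℤ) ∣ ordv Q (a : K₁)) := by
    intro w
    rw [hRdef]
    exact Iff.rfl
  have hR : IsDat p R (fun w => alq (bel K w)) := by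
    refine ⟨hSf.subset fun w hw => ((hRm w).1 hw).1, fun w hw w' h => ?_,
      fun w hw => ((hRm w).1 hw).2.1, fun w hw => ?_, fun w hw => ?_, fun w hw => ?_,
      fun w hw w' h => ?_⟩
    · rw [hRm] at hw ⊢
      refine ⟨hst w hw.1 w' h, free_of_conj h hw.2.1, ?_⟩
      rw [bel_eq_of_conj h]
      exact hw.2.2
    · obtain ⟨-, -, Q, hQw, hQ⟩ := (hRm w).1 hw
      rw [← natCast_notMem_iff, natCast_bel (K := K), ← hQw, ← natCast_bel (K := K),
        natCast_notMem_iff]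
      exact hQp Q hQ
    · obtain ⟨-, hwf, Q, hQw, hQ⟩ := (hRm w).1 hw
      rw [absNorm_free (K := K) w hwf, ← hQw, ← absNorm_free (K := K) Q (hQfree Q hQ)]
      exact norm_dvd hT.prim Q (hQp Q hQ)
    · obtain ⟨-, hwf, hex⟩ := (hRm w).1 hw
      rw [ordW (M := K) w, ram_free w hwf, Nat.cast_one, one_mul]
      exact (halq _ hex).1
    · show alq (bel K w') = alq (bel K w)
      rw [bel_eq_of_conj h]
  obtain ⟨𝔪₀, v, hv, hker⟩ := d_val p k K M δ T R _ hR (up M B.S) hSf hst hSp'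
    (fun w hw => ((hRm w).1 hw).1)
  obtain ⟨G, hG, hGp, hGδ⟩ := Pool.Agent.Helper90.RP.s_sub p k L K M δ T (up M B.S) 𝔪₀ v hv
  obtain ⟨s₀, hs₀⟩ := Pool.Agent.Helper90.RP.Dual.dvd_ncard (K := K) m hfr
    {w ∈ up M B.S | FreeP K w} (hSf.subset fun w hw => hw.1)
    (fun w hw v hv => ⟨hst w hw.1 v hv, free_of_conj hv hw.2⟩) (fun w hw => hw.2)
  obtain ⟨F, hFc, hF1, hF2⟩ := lob p k hk L K M m s₀ δ ζ Φ P hPhi hord hfr T hTc (up M B.S) 𝔪₀ v
    hv hs₀
  obtain ⟨h, hhP, hhG, hhI⟩ := (h1 p K M m δ P hm0 hPhi.copm hδm hPhi.irr hPhi.dvdP G hGp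
    hGδ).2 (T.ncard + s₀) ⟨F, hFc, fun x hx => (hG _).2 (hF1 x hx),
      fun x hx y hy hxy hxG => hF2 x hx y hy hxy ((hG _).1 hxG)⟩
  have hle : B.r ≤ T.ncard + s₀ := rank_le h2 hPhi hord hfr hd htor B hSf hst hs₀
  obtain ⟨Gl, hGL, -, -, -, hGL5⟩ := h4 p K M (up M B.S) hSf hSp' hst
  -- the comparison
  have hcmp : ∀ w ∈ up M B.S, ∀ x : Mˣ, Pw p (pol P δ x) → (∀ W ∈ up M₁ B.S,
      LocAt p W (algebraMap K₁ M₁ (a : K₁)) (algebraMap M M₁ (x : M))) →
      LocD p R (fun w => alq (bel K w)) w (x : M) := by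
    intro w hw x hx hloc
    obtain ⟨W, hW⟩ := exists_bel (M₁ := M₁) w
    have hWw : Above W w := by rw [← hW]; exact above_bel W
    have hWQ : Above W (bel K₁ W) := above_bel W
    have hbel : bel K (bel K₁ W) = bel K w := by rw [bel_bel W, ← bel_bel (M := M) W, hW]
    have hWS : W ∈ up M₁ B.S := by
      obtain ⟨q, hq, hab⟩ := hw
      refine ⟨q, hq, ?_⟩
      rw [← bel_of_above hab, ← hbel, bel_bel W]
      exact above_bel W
    by_cases hwR : w ∈ R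
    · refine ⟨fun h => absurd hwR h, fun _ => ?_⟩
      obtain ⟨-, hwf, Q₀, hQ₀, hQ₀d⟩ := (hRm w).1 hwR
      have hQd : ¬ (p : ℤ) ∣ ordv (bel K₁ W) (a : K₁) := hQall Q₀ _ (hQ₀.trans hbel.symm) hQ₀d
      have hWd : ¬ (p : ℤ) ∣ ordv W (algebraMap K₁ M₁ (a : K₁)) := by
        rw [(hTRF p K₁ M₁ hc2 W _ hWQ).1]
        exact hQd
      obtain ⟨i, hi⟩ := (hloc W hWS).2 hWd
      obtain ⟨hα1, hα2⟩ := halq (bel K w) ⟨Q₀, hQ₀, hQ₀d⟩
      obtain ⟨j, hj⟩ := hα2 _ hbel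
      have hj' := ((hTRF p K₁ M₁ hc2 W _ hWQ).2 _).2 hj
      set α : K := alq (bel K w) with hα
      have hα0 : α ≠ 0 := by
        intro h0
        unfold ordv at hα1
        rw [h0, map_zero, WithZero.log_zero] at hα1
        norm_num at hα1
      have hαM0 : algebraMap K M₁ α ≠ 0 := by
        rw [Ne, map_eq_zero]
        exact hα0
      have e1 : algebraMap K₁ M₁ ((-1) ^ (p - 1) * (a : K₁) * (algebraMap K K₁ α) ^ j) =
          (-1) ^ (p - 1) * algebraMap K₁ M₁ (a : K₁) * (algebraMap K M₁ α) ^ j := by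
        rw [map_mul, map_mul, map_pow, map_pow, map_neg, map_one,
          ← IsScalarTower.algebraMap_apply K K₁ M₁]
      rw [e1] at hj'
      set b : M₁ := (-1) ^ (p - 1) * algebraMap K₁ M₁ (a : K₁) with hb
      have hb0 : b ≠ 0 := by
        refine mul_ne_zero (left_ne_zero_of_mul_eq_one (sg_sq (F := M₁) (p - 1))) ?_
        rw [Ne, map_eq_zero]
        exact a.ne_zero
      have hTG : TG p W (algebraMap K M₁ α) (algebraMap M M₁ (x : M)) := by
        refine ⟨-((j * i : ℕ) : ℤ), ?_⟩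
        have h5 := locPow_mul W hi (locPow_inv W (locPow_pow W hj' i))
        rw [cancel_aux _ b _ hb0 i j] at h5
        exact h5
      obtain ⟨n, hn⟩ := (tg_iff W hp'.ne_zero hαM0 _).1 hTG
      refine ⟨n, ?_⟩
      have e3 : algebraMap M M₁ (x : M) * (algebraMap K M₁ α) ^ n =
          algebraMap M M₁ ((x : M) * (algebraMap K M α) ^ n) := by
        rw [map_mul, map_pow, ← IsScalarTower.algebraMap_apply K M M₁]
      rw [e3] at hn
      exact ((hTRF p M M₁ hc1 W w hWw).2 _).1 hn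
    · refine ⟨fun _ => ?_, fun h => absurd h hwR⟩
      by_cases hwf : FreeP K w
      · have hQd : (p : ℤ) ∣ ordv (bel K₁ W) (a : K₁) := by
          by_contra h
          exact hwR ((hRm w).2 ⟨hw, hwf, _, hbel, h⟩)
        have hWd := ((hTRF p K₁ M₁ hc2 W _ hWQ).1 (a : K₁)).2 hQd
        exact ((hTRF p M M₁ hc1 W w hWw).1 _).1 ((hloc W hWS).1 hWd)
      · exact Pool.Agent.Helper11.RP.s_nsp p k K M m δ ζ Φ P hPhi hord hfr w hwf x hx
  refine ⟨⟨fun j => h (Fin.castLE hle j), fun j => hhP _, ?_, ?_, trunc hle h hhI⟩⟩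
  · intro j x hx
    refine hhG _ x ((hG x).2 ⟨fun w hw => (hker x w hw).2 ?_, ?_⟩)
    · have h6 := hGL5 x ((hGL x).2 hx) w hw
      refine ⟨fun _ => h6.1, fun _ => ⟨0, ?_⟩⟩
      rw [pow_zero, mul_one]
      exact h6.2
    · obtain ⟨y, hy⟩ := hx
      refine locSig_mul_pow L _ x y
        (Pool.Agent.Helper59.RP.s_bin p k L M (above T) (x * y ^ p) fun τ hτ => ?_)
      have h6 := (hy (wt p τ) (hSp' _ (wt_p p τ))).2
      rw [← map_pow] at h6
      have h7 := norm_small_of_val p τ h6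
      rw [map_sub, map_one] at h7
      rw [Units.val_mul, Units.val_pow_eq_pow_val]
      exact h7
  · intro j x hx hloc hsig
    exact hhG _ x ((hG x).2 ⟨fun w hw => (hker x w hw).2 (hcmp w hw x hx hloc), hsig⟩)

end Pool.Agent.Helper64.PP
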