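import Pool.Agent.Helper11.PP.GoalsD

/-!
# Project PP, packet PP-DNAT: from Abel means to natural counting
-/

namespace Pool.Agent.Helper64.PP

open Filter Topology

/-- The weights of the dyadic shells are summable. -/
lemma summable_shell (C : ℝ) (hC : 1 ≤ C) :
    Summable fun l : ℕ ↦ C ^ (l + 1) * Real.exp (-(2 : ℝ) ^ l) := by
  have hC0 : 0 < C := lt_of_lt_of_le one_pos hC
  refine summable_of_ratio_test_tendsto_lt_one (l := 0) one_pos ?_ ?_
  · exact Eventually.of_forall fun n ↦ (mul_pos (pow_pos hC0 _) (Real.exp_pos _)).ne'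
  · have h1 : ∀ n : ℕ, ‖C ^ (n + 1 + 1) * Real.exp (-(2 : ℝ) ^ (n + 1))‖ /
        ‖C ^ (n + 1) * Real.exp (-(2 : ℝ) ^ n)‖ = C * Real.exp (-(2 : ℝ) ^ n) := by
      intro n
      rw [Real.norm_of_nonneg (mul_pos (pow_pos hC0 _) (Real.exp_pos _)).le,
        Real.norm_of_nonneg (mul_pos (pow_pos hC0 _) (Real.exp_pos _)).le]
      rw [div_eq_iff (mul_pos (pow_pos hC0 _) (Real.exp_pos _)).ne']
      have h2 : Real.exp (-(2 : ℝ) ^ (n + 1)) =
          Real.exp (-(2 : ℝ) ^ n) * Real.exp (-(2 : ℝ) ^ n) := by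
        rw [← Real.exp_add]
        congr 1
        ring
      rw [h2, pow_succ C (n + 1)]
      ring
    simp_rw [h1]
    have h3 : Tendsto (fun n : ℕ ↦ -(2 : ℝ) ^ n) atTop atBot :=
      tendsto_neg_atTop_atBot.comp (tendsto_pow_atTop_atTop_of_one_lt one_lt_two)
    have h4 := (Real.tendsto_exp_atBot.comp h3).const_mul C
    simpa using h4

/-- The main estimate for finite sums outside a large ball. -/
lemma sum_tail_le {ι : Type} (f : ι → ℕ) (hfin : ∀ X : ℝ, {i | (f i : ℝ) ≤ X}.Finite)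
    (C X₀ : ℝ) (hX₀ : 0 < X₀) (hC1 : 1 ≤ C)
    (hC : ∀ X : ℝ, X₀ ≤ X →
      ({i | (f i : ℝ) ≤ 2 * X}.ncard : ℝ) ≤ C * {i | (f i : ℝ) ≤ X}.ncard)
    (Y : ℝ) (hY : X₀ ≤ Y) (m : ℕ) (s : Finset ι) (hs : ∀ i ∈ s, 2 ^ m * Y < (f i : ℝ)) :
    ∑ i ∈ s, Real.exp (-(f i : ℝ) / Y) ≤
      (∑' k : ℕ, C ^ (k + m + 1) * Real.exp (-(2 : ℝ) ^ (k + m))) *
        {i | (f i : ℝ) ≤ Y}.ncard := by
  classical
  have hY0 : 0 < Y := lt_of_lt_of_le hX₀ hY
  have hC0 : 0 < C := lt_of_lt_of_le one_pos hC1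
  -- growth
  have hgrow : ∀ n : ℕ, ({i | (f i : ℝ) ≤ 2 ^ n * Y}.ncard : ℝ) ≤
      C ^ n * {i | (f i : ℝ) ≤ Y}.ncard := by
    intro n
    induction n with
    | zero => simp
    | succ n ih =>
      have h1 : X₀ ≤ 2 ^ n * Y := by
        have : (1 : ℝ) ≤ 2 ^ n := one_le_pow₀ (by norm_num)
        nlinarith
      have h2 := hC _ h1
      have h3 : (2 : ℝ) * (2 ^ n * Y) = 2 ^ (n + 1) * Y := by ring
      rw [h3] at h2
      calc ({i | (f i : ℝ) ≤ 2 ^ (n + 1) * Y}.ncard : ℝ) ≤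
            C * {i | (f i : ℝ) ≤ 2 ^ n * Y}.ncard := h2
        _ ≤ C * (C ^ n * {i | (f i : ℝ) ≤ Y}.ncard) := mul_le_mul_of_nonneg_left ih hC0.le
        _ = _ := by ring
  -- the shells
  obtain ⟨L, hL⟩ : ∃ L : ℕ, ∀ i ∈ s, (f i : ℝ) ≤ 2 ^ (m + L) * Y := by
    have h1 : ∀ i : ι, ∃ L : ℕ, (f i : ℝ) ≤ 2 ^ (m + L) * Y := by
      intro i
      obtain ⟨L, hL⟩ := pow_unbounded_of_one_lt ((f i : ℝ) / Y) (one_lt_two (α := ℝ))
      refine ⟨L, ?_⟩
      have h2 : (f i : ℝ) ≤ 2 ^ L * Y := by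
        rw [div_lt_iff₀ hY0] at hL
        exact hL.le
      have h3 : (2 : ℝ) ^ L ≤ 2 ^ (m + L) := pow_le_pow_right₀ (by norm_num) (by omega)
      nlinarith
    choose g hg using h1
    refine ⟨s.sup g, fun i hi ↦ (hg i).trans ?_⟩
    have h4 : (2 : ℝ) ^ (m + g i) ≤ 2 ^ (m + s.sup g) :=
      pow_le_pow_right₀ (by norm_num) (by have := Finset.le_sup (f := g) hi; omega)
    exact mul_le_mul_of_nonneg_right h4 hY0.le
  have hpt : ∀ i ∈ s, Real.exp (-(f i : ℝ) / Y) ≤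
      ∑ l ∈ Finset.range L, if (f i : ℝ) ≤ 2 ^ (l + m + 1) * Y then
        Real.exp (-(2 : ℝ) ^ (l + m)) else 0 := by
    intro i hi
    -- the least level
    have hex : ∃ l : ℕ, (f i : ℝ) ≤ 2 ^ (m + l) * Y := ⟨L, hL i hi⟩
    have hspec := Nat.find_spec hex
    have hle : Nat.find hex ≤ L := Nat.find_min' hex (hL i hi)
    have hpos : Nat.find hex ≠ 0 := by
      intro h0
      rw [h0, add_zero] at hspec
      exact absurd hspec (not_le.mpr (hs i hi))
    obtain ⟨l, hl⟩ := Nat.exists_eq_succ_of_ne_zero hpos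
    have hlt : l < Nat.find hex := by omega
    have hmin : 2 ^ (m + l) * Y < (f i : ℝ) := not_le.mp (Nat.find_min hex hlt)
    have hlL : l ∈ Finset.range L := by
      rw [Finset.mem_range]; omega
    have hup : (f i : ℝ) ≤ 2 ^ (l + m + 1) * Y := by
      rw [hl] at hspec
      have : m + l.succ = l + m + 1 := by omega
      rwa [this] at hspec
    refine le_trans ?_ (Finset.single_le_sum (f := fun l : ℕ ↦
      if (f i : ℝ) ≤ 2 ^ (l + m + 1) * Y then Real.exp (-(2 : ℝ) ^ (l + m)) else 0)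
      (fun j _ ↦ ?_) hlL)
    · show Real.exp (-(f i : ℝ) / Y) ≤
        if (f i : ℝ) ≤ 2 ^ (l + m + 1) * Y then Real.exp (-(2 : ℝ) ^ (l + m)) else 0
      rw [if_pos hup]
      apply Real.exp_le_exp.mpr
      rw [neg_div, neg_le_neg_iff, le_div_iff₀ hY0]
      rw [add_comm l m]
      exact hmin.le
    · split_ifs
      · exact (Real.exp_pos _).le
      · exact le_rfl
  calc ∑ i ∈ s, Real.exp (-(f i : ℝ) / Y)
      ≤ ∑ i ∈ s, ∑ l ∈ Finset.range L, (if (f i : ℝ) ≤ 2 ^ (l + m + 1) * Y then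
        Real.exp (-(2 : ℝ) ^ (l + m)) else 0) := Finset.sum_le_sum hpt
    _ = ∑ l ∈ Finset.range L, ∑ i ∈ s, (if (f i : ℝ) ≤ 2 ^ (l + m + 1) * Y then
        Real.exp (-(2 : ℝ) ^ (l + m)) else 0) := Finset.sum_comm
    _ ≤ ∑ l ∈ Finset.range L, C ^ (l + m + 1) * Real.exp (-(2 : ℝ) ^ (l + m)) *
        {i | (f i : ℝ) ≤ Y}.ncard := by
      refine Finset.sum_le_sum fun l _ ↦ ?_
      rw [← Finset.sum_filter, Finset.sum_const, nsmul_eq_mul]
      have h5 : ((s.filter fun i ↦ (f i : ℝ) ≤ 2 ^ (l + m + 1) * Y).card : ℝ) ≤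
          ({i | (f i : ℝ) ≤ 2 ^ (l + m + 1) * Y}.ncard : ℝ) := by
        rw [← Set.ncard_coe_finset]
        refine Nat.cast_le.mpr (Set.ncard_le_ncard ?_ (hfin _))
        intro i hi
        exact (Finset.mem_filter.mp (Finset.mem_coe.mp hi)).2
      calc ((s.filter fun i ↦ (f i : ℝ) ≤ 2 ^ (l + m + 1) * Y).card : ℝ) *
            Real.exp (-(2 : ℝ) ^ (l + m)) ≤
            (C ^ (l + m + 1) * {i | (f i : ℝ) ≤ Y}.ncard) * Real.exp (-(2 : ℝ) ^ (l + m)) :=
            mul_le_mul_of_nonneg_right (h5.trans (hgrow _)) (Real.exp_pos _).le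
        _ = _ := by ring
    _ = (∑ l ∈ Finset.range L, C ^ (l + m + 1) * Real.exp (-(2 : ℝ) ^ (l + m))) *
        {i | (f i : ℝ) ≤ Y}.ncard := by rw [Finset.sum_mul]
    _ ≤ _ := by
      apply mul_le_mul_of_nonneg_right _ (Nat.cast_nonneg _)
      have hsum : Summable fun k : ℕ ↦ C ^ (k + m + 1) * Real.exp (-(2 : ℝ) ^ (k + m)) :=
        (summable_nat_add_iff m).mpr (summable_shell C hC1)
      exact hsum.sum_le_tsum _ fun k _ ↦ (mul_pos (pow_pos hC0 _) (Real.exp_pos _)).le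

theorem d_nat : Pool.Agent.Helper11.PP.D_NAT := by
  classical
  intro ι f hfin G C₁ X₀ θ hX₀ hθ hC₁ hG
  set C : ℝ := max C₁ 1 with hCdef
  have hC1 : 1 ≤ C := le_max_right _ _
  have hC0 : 0 < C := lt_of_lt_of_le one_pos hC1
  have hC : ∀ X : ℝ, X₀ ≤ X →
      ({i | (f i : ℝ) ≤ 2 * X}.ncard : ℝ) ≤ C * {i | (f i : ℝ) ≤ X}.ncard := fun X hX ↦
    (hC₁ X hX).trans (mul_le_mul_of_nonneg_right (le_max_left _ _) (Nat.cast_nonneg _))
  -- choice of `m`
  set η : ℝ := (1 - θ) * Real.exp (-1) / 2 with hη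
  have hη0 : 0 < η := by
    have : 0 < 1 - θ := by linarith
    positivity
  obtain ⟨m, hm⟩ : ∃ m : ℕ,
      ∑' k : ℕ, C ^ (k + m + 1) * Real.exp (-(2 : ℝ) ^ (k + m)) < η := by
    have h1 := tendsto_sum_nat_add fun l : ℕ ↦ C ^ (l + 1) * Real.exp (-(2 : ℝ) ^ l)
    exact (h1.eventually (gt_mem_nhds hη0)).exists
  refine ⟨η / C ^ m, 2 ^ m * X₀, by positivity, ?_⟩
  intro X hX
  have h2m : (0 : ℝ) < 2 ^ m := by positivity
  set Y : ℝ := X / 2 ^ m with hYdef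
  have hYX : 2 ^ m * Y = X := by rw [hYdef]; field_simp
  have hY : X₀ ≤ Y := by
    rw [hYdef, le_div_iff₀ h2m]; linarith
  have hY0 : 0 < Y := lt_of_lt_of_le hX₀ hY
  have hYle : Y ≤ X := by
    have : (1 : ℝ) ≤ 2 ^ m := one_le_pow₀ (by norm_num)
    nlinarith
  set A : ℝ := ({i | (f i : ℝ) ≤ Y}.ncard : ℝ) with hA
  have hA0 : 0 ≤ A := Nat.cast_nonneg _
  set g : ι → ℝ := fun i ↦ Real.exp (-(f i : ℝ) / Y) with hg
  have hgpos : ∀ i, 0 < g i := fun i ↦ Real.exp_pos _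
  have hgle : ∀ i, g i ≤ 1 := fun i ↦ by
    rw [hg]
    apply Real.exp_le_one_iff.mpr
    rw [neg_div]
    have : 0 ≤ (f i : ℝ) / Y := by positivity
    linarith
  -- summability
  have hbound : ∀ s : Finset ι, ∑ i ∈ s, (if i ∈ G then g i else 0) ≤
      {i | i ∈ G ∧ (f i : ℝ) ≤ X}.ncard + η * A := by
    intro s
    rw [← Finset.sum_filter_add_sum_filter_not s fun i ↦ (f i : ℝ) ≤ X]
    refine add_le_add ?_ ?_
    · rw [← Finset.sum_filter]
      calc ∑ i ∈ (s.filter fun i ↦ (f i : ℝ) ≤ X).filter (fun i ↦ i ∈ G), g i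
          ≤ ∑ i ∈ (s.filter fun i ↦ (f i : ℝ) ≤ X).filter (fun i ↦ i ∈ G), (1 : ℝ) :=
            Finset.sum_le_sum fun i _ ↦ hgle i
        _ = (((s.filter fun i ↦ (f i : ℝ) ≤ X).filter (fun i ↦ i ∈ G)).card : ℝ) := by simp
        _ ≤ _ := by
          rw [← Set.ncard_coe_finset]
          refine Nat.cast_le.mpr (Set.ncard_le_ncard ?_ ((hfin X).subset fun i hi ↦ hi.2))
          intro i hi
          have h9 := Finset.mem_filter.mp (Finset.mem_coe.mp hi)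
          exact ⟨h9.2, (Finset.mem_filter.mp h9.1).2⟩
    · calc ∑ i ∈ s.filter (fun i ↦ ¬ (f i : ℝ) ≤ X), (if i ∈ G then g i else 0)
          ≤ ∑ i ∈ s.filter (fun i ↦ ¬ (f i : ℝ) ≤ X), g i :=
            Finset.sum_le_sum fun i _ ↦ by
              split_ifs
              · exact le_rfl
              · exact (hgpos i).le
        _ ≤ (∑' k : ℕ, C ^ (k + m + 1) * Real.exp (-(2 : ℝ) ^ (k + m))) * A :=
          sum_tail_le f hfin C X₀ hX₀ hC1 hC Y hY m _ (by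
            intro i hi
            rw [Finset.mem_filter, not_le] at hi
            rw [hYX]; exact hi.2)
        _ ≤ η * A := mul_le_mul_of_nonneg_right hm.le hA0
  have hsumm : Summable g := by
    refine summable_of_sum_le (fun i ↦ (hgpos i).le)
      (c := ({i | (f i : ℝ) ≤ X}.ncard : ℝ) + η * A) fun s ↦ ?_
    rw [← Finset.sum_filter_add_sum_filter_not s fun i ↦ (f i : ℝ) ≤ X]
    refine add_le_add ?_ ?_
    · calc ∑ i ∈ s.filter (fun i ↦ (f i : ℝ) ≤ X), g i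
          ≤ ∑ i ∈ s.filter (fun i ↦ (f i : ℝ) ≤ X), (1 : ℝ) :=
            Finset.sum_le_sum fun i _ ↦ hgle i
        _ = ((s.filter fun i ↦ (f i : ℝ) ≤ X).card : ℝ) := by simp
        _ ≤ _ := by
          rw [← Set.ncard_coe_finset]
          refine Nat.cast_le.mpr (Set.ncard_le_ncard ?_ (hfin X))
          intro i hi
          exact (Finset.mem_filter.mp (Finset.mem_coe.mp hi)).2
    · calc ∑ i ∈ s.filter (fun i ↦ ¬ (f i : ℝ) ≤ X), g i
          ≤ (∑' k : ℕ, C ^ (k + m + 1) * Real.exp (-(2 : ℝ) ^ (k + m))) * A :=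
          sum_tail_le f hfin C X₀ hX₀ hC1 hC Y hY m _ (by
            intro i hi
            rw [Finset.mem_filter, not_le] at hi
            rw [hYX]; exact hi.2)
        _ ≤ η * A := mul_le_mul_of_nonneg_right hm.le hA0
  -- the two parts
  have hGsum : Summable fun i ↦ if i ∈ G then g i else 0 :=
    Summable.of_nonneg_of_le (fun i ↦ by split_ifs; exacts [(hgpos i).le, le_rfl])
      (fun i ↦ by split_ifs; exacts [le_rfl, (hgpos i).le]) hsumm
  have hGcsum : Summable fun i ↦ if i ∈ G then 0 else g i :=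
    Summable.of_nonneg_of_le (fun i ↦ by split_ifs; exacts [le_rfl, (hgpos i).le])
      (fun i ↦ by split_ifs; exacts [(hgpos i).le, le_rfl]) hsumm
  have hsplit : ∑' i, g i = (∑' i, if i ∈ G then g i else 0) + ∑' i, if i ∈ G then 0 else g i := by
    rw [← hGsum.tsum_add hGcsum]
    refine tsum_congr fun i ↦ ?_
    split_ifs <;> simp
  have hsub : ∑' i : {i | i ∉ G}, Real.exp (-(f i : ℝ) / Y) = ∑' i, if i ∈ G then 0 else g i := by
    rw [tsum_subtype {i | i ∉ G} g]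
    refine tsum_congr fun i ↦ ?_
    by_cases hi : i ∈ G
    · simp [hi]
    · simp [hi]
  have hGY := hG Y hY
  rw [hsub] at hGY
  have hGY' : (∑' i, if i ∈ G then 0 else g i) ≤ θ * ∑' i, g i := hGY
  have hGle : (∑' i, if i ∈ G then g i else 0) ≤
      {i | i ∈ G ∧ (f i : ℝ) ≤ X}.ncard + η * A := hGsum.tsum_le_of_sum_le hbound
  -- lower bound of the full sum
  have hlow : Real.exp (-1) * A ≤ ∑' i, g i := by
    have h1 : ∑ i ∈ (hfin Y).toFinset, g i ≤ ∑' i, g i :=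
      hsumm.sum_le_tsum _ fun i _ ↦ (hgpos i).le
    refine le_trans ?_ h1
    have h2 : ∑ i ∈ (hfin Y).toFinset, Real.exp (-1) ≤ ∑ i ∈ (hfin Y).toFinset, g i := by
      refine Finset.sum_le_sum fun i hi ↦ ?_
      rw [Set.Finite.mem_toFinset, Set.mem_ofPred_eq] at hi
      apply Real.exp_le_exp.mpr
      rw [neg_div, neg_le_neg_iff, div_le_one hY0]
      exact hi
    rw [Finset.sum_const, nsmul_eq_mul] at h2
    rw [hA, Set.ncard_eq_toFinset_card _ (hfin Y)]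
    linarith
  have hmain : η * A ≤ {i | i ∈ G ∧ (f i : ℝ) ≤ X}.ncard := by
    have h1 : (1 - θ) * ∑' i, g i ≤ {i | i ∈ G ∧ (f i : ℝ) ≤ X}.ncard + η * A := by
      linarith
    have h2 : (1 - θ) * (Real.exp (-1) * A) ≤ (1 - θ) * ∑' i, g i :=
      mul_le_mul_of_nonneg_left hlow (by linarith)
    have h3 : (1 - θ) * (Real.exp (-1) * A) = 2 * (η * A) := by rw [hη]; ring
    linarith
  -- growth
  have hgrow : ∀ n : ℕ, ({i | (f i : ℝ) ≤ 2 ^ n * Y}.ncard : ℝ) ≤ C ^ n * A := by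
    intro n
    induction n with
    | zero => simp [hA]
    | succ n ih =>
      have h1 : X₀ ≤ 2 ^ n * Y := by
        have : (1 : ℝ) ≤ 2 ^ n := one_le_pow₀ (by norm_num)
        nlinarith
      have h2 := hC _ h1
      have h3 : (2 : ℝ) * (2 ^ n * Y) = 2 ^ (n + 1) * Y := by ring
      rw [h3] at h2
      calc ({i | (f i : ℝ) ≤ 2 ^ (n + 1) * Y}.ncard : ℝ) ≤
            C * {i | (f i : ℝ) ≤ 2 ^ n * Y}.ncard := h2
        _ ≤ C * (C ^ n * A) := mul_le_mul_of_nonneg_left ih hC0.le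
        _ = _ := by ring
  have hgX := hgrow m
  rw [hYX] at hgX
  have hCm : 0 < C ^ m := pow_pos hC0 m
  calc η / C ^ m * {i | (f i : ℝ) ≤ X}.ncard ≤ η / C ^ m * (C ^ m * A) :=
        mul_le_mul_of_nonneg_left hgX (by positivity)
    _ = η * A := by field_simp
    _ ≤ _ := hmain

end Pool.Agent.Helper64.PP
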