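import Pool.Agent.Helper88.PP.Goals

set_option autoImplicit false

open Finset Filter Topology

open scoped Classical

namespace Pool.Agent.Helper64.PP

open Pool.Agent.Helper88.PP

/-- glueing of two functions -/
noncomputable def glue (P P' : Finset ℕ) (r : P → ℕ) (s : P' → ℕ) : ↥(P ∪ P') → ℕ :=
  fun i => if h : (i : ℕ) ∈ P then r ⟨i, h⟩ else
    s ⟨i, by
      have := i.2
      rw [Finset.mem_union] at this
      exact this.resolve_left h⟩

def resL (P P' : Finset ℕ) (t : ↥(P ∪ P') → ℕ) : P → ℕ :=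
  fun i => t ⟨i, Finset.mem_union_left _ i.2⟩

def resR (P P' : Finset ℕ) (t : ↥(P ∪ P') → ℕ) : P' → ℕ :=
  fun i => t ⟨i, Finset.mem_union_right _ i.2⟩

lemma resL_glue (P P' : Finset ℕ) (r : P → ℕ) (s : P' → ℕ) : resL P P' (glue P P' r s) = r := by
  funext i
  simp [resL, glue]

lemma resR_glue (P P' : Finset ℕ) (hd : Disjoint P P') (r : P → ℕ) (s : P' → ℕ) :
    resR P P' (glue P P' r s) = s := by
  funext i
  have h : (i : ℕ) ∉ P := fun h => (Finset.disjoint_left.mp hd h) i.2
  simp [resR, glue, h]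

lemma glue_res (P P' : Finset ℕ) (t : ↥(P ∪ P') → ℕ) :
    glue P P' (resL P P' t) (resR P P' t) = t := by
  funext i
  by_cases h : (i : ℕ) ∈ P
  · simp [resL, resR, glue, h]
  · simp [resL, resR, glue, h]

/-- splitting a product over the union -/
lemma prod_split {M : Type*} [CommMonoid M] (P P' : Finset ℕ) (hd : Disjoint P P')
    (f : ℕ → ℕ → M) (t : ↥(P ∪ P') → ℕ) :
    ∏ i : ↥(P ∪ P'), f i (t i) =
      (∏ i : P, f i (resL P P' t i)) * ∏ i : P', f i (resR P P' t i) := by
  have e1 : ∏ i : ↥(P ∪ P'), f i (t i) =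
      ∏ i ∈ P ∪ P', f i (if h : i ∈ P ∪ P' then t ⟨i, h⟩ else 0) := by
    rw [← Finset.prod_coe_sort (P ∪ P')]
    refine Finset.prod_congr rfl fun i _ => ?_
    simp only [i.2, dif_pos]
  have e2 : ∏ i : P, f i (resL P P' t i) =
      ∏ i ∈ P, f i (if h : i ∈ P ∪ P' then t ⟨i, h⟩ else 0) := by
    rw [← Finset.prod_coe_sort P]
    refine Finset.prod_congr rfl fun i _ => ?_
    simp [resL, i.2]
  have e3 : ∏ i : P', f i (resR P P' t i) =
      ∏ i ∈ P', f i (if h : i ∈ P ∪ P' then t ⟨i, h⟩ else 0) := by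
    rw [← Finset.prod_coe_sort P']
    refine Finset.prod_congr rfl fun i _ => ?_
    simp [resR, i.2]
  rw [e1, e2, e3, Finset.prod_union hd]

/-- the label functions on the union -/
noncomputable def TU (q E z : ℕ) (P P' : Finset ℕ) : Finset (↥(P ∪ P') → ℕ) :=
  (Fintype.piFinset (fun _ : ↥(P ∪ P') => insert 0 (LA z (m1 q E) (m2 q E)))).filter
    (fun t => resL P P' t ∈ TT q E z P ∧ resR P P' t ∈ TT q E z P')

lemma sum_TU (q E z : ℕ) (P P' : Finset ℕ) (hd : Disjoint P P') (f : ℕ → ℕ → ℝ) :
    ∑ t ∈ TU q E z P P', ∏ i : ↥(P ∪ P'), f i (t i) =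
      (∑ r ∈ TT q E z P, ∏ i : P, f i (r i)) * ∑ s ∈ TT q E z P', ∏ i : P', f i (s i) := by
  rw [Finset.sum_mul_sum, ← Finset.sum_product']
  refine Finset.sum_nbij' (fun t => (resL P P' t, resR P P' t))
    (fun rs => glue P P' rs.1 rs.2) ?_ ?_ ?_ ?_ ?_
  · intro t ht
    rw [TU, Finset.mem_filter] at ht
    rw [Finset.mem_product]
    exact ht.2
  · intro rs hrs
    rw [Finset.mem_product] at hrs
    rw [TU, Finset.mem_filter, resL_glue, resR_glue P P' hd]
    refine ⟨?_, hrs⟩
    rw [Fintype.mem_piFinset]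
    intro i
    have h1 := hrs.1
    have h2 := hrs.2
    rw [TT, Finset.mem_filter, Fintype.mem_piFinset] at h1 h2
    unfold glue
    split_ifs with h
    · exact h1.1 _
    · exact h2.1 _
  · intro t _
    exact glue_res P P' t
  · intro rs _
    exact Prod.ext (resL_glue P P' _ _) (resR_glue P P' hd _ _)
  · intro t _
    exact prod_split P P' hd f t

lemma aa_nonneg (q E z r : ℕ) : 0 ≤ aa q E z r := by
  unfold aa VV
  positivity

/-- number of nonzero labels -/
lemma card_nz (q E z : ℕ) (hq : 1 ≤ q) (hz : 2 ≤ z) (P : Finset ℕ) (r : P → ℕ)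
    (hr : r ∈ TT q E z P) : (univ.filter (fun i => r i ≠ 0)).card ≤ 2 * q := by
  rw [TT, Finset.mem_filter, Fintype.mem_piFinset] at hr
  obtain ⟨h1, h2⟩ := hr
  have h3 : (univ.filter (fun i => r i ≠ 0)).card * (m1 q E + 1) ≤ MM E := by
    refine le_trans ?_ h2
    rw [← smul_eq_mul, ← Finset.sum_const, Finset.sum_filter]
    refine Finset.sum_le_sum fun i _ => ?_
    by_cases h0 : r i = 0
    · simp [h0]
    · simp only [ne_eq, h0, not_false_eq_true, if_true, if_false]
      have h4 := h1 i
      rw [Finset.mem_insert] at h4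
      have h5 := h4.resolve_left h0
      rw [LA, Finset.mem_filter] at h5
      unfold ee
      have : m1 q E ≤ Nat.log z (r i) := Nat.le_log_of_pow_le (by omega) h5.2
      omega
  have h6 : MM E < 2 * q * (m1 q E + 1) := by
    unfold MM m1
    exact Nat.lt_mul_div_succ _ (by omega)
  by_contra hcon
  push Not at hcon
  have h7 : 2 * q * (m1 q E + 1) ≤ (univ.filter (fun i => r i ≠ 0)).card * (m1 q E + 1) :=
    Nat.mul_le_mul_right _ hcon.le
  omega

lemma prod_max (q E z : ℕ) (hz : 2 ≤ z) (P : Finset ℕ) (r : P → ℕ)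
    (hr : r ∈ TT q E z P) : ∏ i, max 1 (r i) ≤ z ^ MM E := by
  rw [TT, Finset.mem_filter] at hr
  obtain ⟨_, h2⟩ := hr
  calc ∏ i, max 1 (r i) ≤ ∏ i, z ^ (if r i = 0 then 0 else ee z (r i)) := by
        refine Finset.prod_le_prod' fun i _ => ?_
        by_cases h0 : r i = 0
        · simp [h0]
        · simp only [h0, if_false]
          refine max_le ?_ ?_
          · exact Nat.one_le_pow _ _ (by omega)
          · exact (Nat.lt_pow_succ_log_self (by omega) _).le
    _ = z ^ ∑ i, (if r i = 0 then 0 else ee z (r i)) := by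
        rw [Finset.prod_pow_eq_pow_sum]
    _ ≤ z ^ MM E := Nat.pow_le_pow_right (by omega) h2

theorem s3 (h : StmtTS) : StmtS3 := by
  intro q hq A ε hA hε
  obtain ⟨E0, hE0⟩ := h q hq (2 * A) ε (4 * q) (by positivity) hε
  refine ⟨max E0 1, fun E hE => ?_⟩
  obtain ⟨z0, hz0⟩ := hE0 E (le_trans (le_max_left _ _) hE)
  refine ⟨max z0 2, fun z hz x y hsc b hb P P' hP hP' hd hPc hPc' => ?_⟩
  have hz2 : 2 ≤ z := le_trans (le_max_right _ _) hz
  have hE1 : 1 ≤ E := le_trans (le_max_right _ _) hE
  have hq1 : 1 ≤ q := hq.1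
  have key := hz0 z (le_trans (le_max_left _ _) hz) x y hsc b hb (P ∪ P')
    (Finset.union_subset hP hP')
    (by
      rw [Finset.card_union_of_disjoint hd]
      push_cast
      linarith)
    (TU q E z P P')
    (fun t => ∏ i, (if t i = 0 then 1 else - aa q E z (t i))) ∅ (by simp)
    (by
      intro r hr i _
      rw [TU, Finset.mem_filter, Fintype.mem_piFinset] at hr
      have := hr.1 i
      rwa [Finset.mem_insert] at this)
    (by
      intro r _ i hi
      simp at hi)
    (by
      intro r hr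
      rw [TU, Finset.mem_filter] at hr
      have h1 := card_nz q E z hq1 hz2 P _ hr.2.1
      have h2 := card_nz q E z hq1 hz2 P' _ hr.2.2
      have h3 : (univ.filter (fun i => r i ≠ 0)).card =
          (univ.filter (fun i => resL P P' r i ≠ 0)).card +
          (univ.filter (fun i => resR P P' r i ≠ 0)).card := by
        have := prod_split (M := Multiplicative ℕ) P P' hd
          (fun _ k => Multiplicative.ofAdd (if k ≠ 0 then 1 else 0)) r
        rw [← ofAdd_sum, ← ofAdd_sum, ← ofAdd_sum, ← ofAdd_add] at this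
        have h4 := Multiplicative.ofAdd.injective this
        rw [Finset.card_filter, Finset.card_filter, Finset.card_filter]
        exact h4
      omega)
    (by
      intro r hr
      rw [TU, Finset.mem_filter] at hr
      have h1 := prod_max q E z hz2 P _ hr.2.1
      have h2 := prod_max q E z hz2 P' _ hr.2.2
      rw [prod_split P P' hd (fun _ k => max 1 k) r, two_mul, pow_add]
      exact Nat.mul_le_mul h1 h2)
    (by
      intro r _
      rw [Finset.abs_prod]
      refine Finset.prod_le_prod (fun i _ => abs_nonneg _) fun i _ => ?_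
      simp only [Finset.notMem_empty, if_false]
      split_ifs
      · simp
      · rw [abs_neg, abs_of_nonneg (aa_nonneg q E z _)])
  have hsum : ∀ n, (∑ r ∈ TU q E z P P',
      (∏ i, (if r i = 0 then 1 else - aa q E z (r i))) * ∏ i, vv y z (r i) (n + (i : ℕ)))
      = WW q E z y P n * WW q E z y P' n := by
    intro n
    rw [WW, WW, ← sum_TU q E z P P' hd
      (fun i k => (if k = 0 then 1 else - aa q E z k) * vv y z k (n + i))]
    refine Finset.sum_congr rfl fun r _ => ?_
    rw [← Finset.prod_mul_distrib]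
  have hsum2 : (∑ r ∈ TU q E z P P',
      (∏ i, (if r i = 0 then 1 else - aa q E z (r i))) ^ 2 * ∏ i, ww (om y z) (r i))
      = DD q E z y P * DD q E z y P' := by
    rw [DD, DD, ← sum_TU q E z P P' hd
      (fun i k => (if k = 0 then 1 else (aa q E z k) ^ 2) * ww (om y z) k)]
    refine Finset.sum_congr rfl fun r _ => ?_
    rw [← Finset.prod_pow, ← Finset.prod_mul_distrib]
    refine Finset.prod_congr rfl fun i _ => ?_
    split_ifs <;> simp
  have hXX : 0 ≤ XX x := by unfold XX; positivity
  simp only [hsum, hsum2] at key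
  refine le_trans key ?_
  simp only [Finset.card_empty, pow_zero, mul_one]
  refine mul_le_mul_of_nonneg_right ?_ hXX
  refine div_le_self hε.le ?_
  exact_mod_cast hE1

end Pool.Agent.Helper64.PP
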